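import Mathlib
import Pool.Agent.Y666.SP.Stm

/-!
# SP-LIM: limits of the selected germs, and elements between two selected germs
-/

set_option autoImplicit false

namespace Pool.Agent.Y666.SP

namespace Y383

variable {α : Type} [PartialOrder α]

theorem sub_of_gll {g h : Germ α} (hgh : gll g h) : h.carrier ⊆ g.carrier := by
  obtain ⟨p, hp, hq⟩ := hgh
  exact fun q hqh => g.up p hp q (hq q hqh).le

theorem gll_of_sub_gll {g h k : Germ α} (h1 : h.carrier ⊆ g.carrier) (h2 : gll h k) :
    gll g k := by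
  obtain ⟨p, hp, hq⟩ := h2
  exact ⟨p, h1 hp, hq⟩

theorem gll_of_gll_sub {g h k : Germ α} (h1 : gll g h) (h2 : k.carrier ⊆ h.carrier) :
    gll g k := by
  obtain ⟨p, hp, hq⟩ := h1
  exact ⟨p, hp, fun q hqk => hq q (h2 hqk)⟩

end Y383

open Y383

theorem t_LIM (hGLB : S_GLB) : S_LIM := by
  intro α _ G hS g hg
  by_cases hL : ∃ x ∈ BB G, x ∈ g.carrier ∧ ∀ h ∈ G, gll g h → x ∉ h.carrier
  · exact Or.inl hL
  right
  set V : Set (Germ α) := {h | h ∈ G ∧ gll g h} with hV
  have claim : ∀ x ∈ g.carrier, ¬ ∀ h ∈ V, ∀ q ∈ h.carrier, x < q := by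
    intro x hx hlt
    apply hL
    refine ⟨x, ?_, hx, ?_⟩
    · intro k hk
      rcases hS.ch g hg k hk with h1 | h1 | h1
      · left; rw [← h1]; exact hx
      · right; exact hlt k ⟨hk, h1⟩
      · left; exact sub_of_gll h1 hx
    · intro h hh hgh hxh
      exact lt_irrefl _ (hlt h ⟨hh, hgh⟩ x hxh)
  have hne : V.Nonempty := by
    by_contra hemp
    rw [Set.not_nonempty_iff_eq_empty] at hemp
    obtain ⟨x, hx⟩ := g.nonempty
    apply claim x hx
    intro h hh
    rw [hemp] at hh
    exact absurd hh (Set.notMem_empty _)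
  have hch : Ch gll V := fun a ha b hb => hS.ch a ha.1 b hb.1
  have hnl : ∀ a ∈ V, ∃ b ∈ V, gll b a := by
    intro a ha
    by_contra hcon
    push Not at hcon
    obtain ⟨p, hp, hpq⟩ := ha.2
    apply claim p hp
    intro h' hh' q hq
    rcases hch h' hh' a ha with h1 | h1 | h1
    · rw [h1] at hq; exact hpq q hq
    · exact absurd h1 (hcon h' hh')
    · exact hpq q (sub_of_gll h1 hq)
  obtain ⟨m, hm1, hm2, hm3, hm4⟩ := hGLB α V hne hch hnl
  have hgm : g ≤ m := hm3 g (fun a ha => sub_of_gll ha.2)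
  by_cases hmg : m = g
  · intro z hz
    rw [← hmg] at hz
    obtain ⟨a, ha, hza⟩ := (hm1 z).1 hz
    exact ⟨a, ha.1, ha.2, hza⟩
  · exfalso
    have hlt : g < m := lt_of_le_of_ne hgm (fun h => hmg h.symm)
    have hngm : ¬ gll g m := by
      rintro ⟨p, hp, hpq⟩
      apply claim p hp
      intro h hh q hq
      exact hpq q ((hm1 q).2 ⟨h, hh, hq⟩)
    apply hngm
    apply hS.sw g hg m hlt
    intro h hh hgh
    obtain ⟨h', hh', hh'h⟩ := hnl h ⟨hh, hgh⟩
    exact gll_of_sub_gll (hm2 h' hh') hh'h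

theorem t_BET (hLIM : S_LIM) : S_BET := by
  intro α _ w hw G hS g hg h hh hgh
  by_contra hcon
  push Not at hcon
  have key : ∀ n : ℕ, ∃ g' ∈ G, ∃ h' ∈ G, gll g' h' ∧ g'.carrier ⊆ g.carrier ∧
      h.carrier ⊆ h'.carrier ∧ ∃ s : Finset α, IsAntichain (· ≤ ·) (s : Set α) ∧ s.card = n ∧
        ∀ q ∈ g'.carrier, (∀ r ∈ h'.carrier, q < r) → ∀ a ∈ s, ¬ q ≤ a ∧ ¬ a ≤ q := by
    intro n
    induction n with
    | zero =>
      refine ⟨g, hg, h, hh, hgh, subset_rfl, subset_rfl, ∅, ?_, rfl, ?_⟩
      · simp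
      · intro q _ _ a ha
        exact absurd ha (Finset.notMem_empty _)
    | succ n ih =>
      classical
      obtain ⟨g', hg', h', hh', hgh', h1, h2, s, hs1, hs2, hs3⟩ := ih
      obtain ⟨p, hp, hpq⟩ := id hgh'
      have hpB : p ∉ BB G := by
        intro hB
        obtain ⟨q, hq, hnq⟩ := hcon p hB (h1 hp)
        exact hnq (hpq q (h2 hq))
      have hpB2 : ∃ k ∈ G, p ∉ k.carrier ∧ ∃ q0 ∈ k.carrier, ¬ p < q0 := by
        by_contra hno
        push Not at hno
        apply hpB
        intro k hk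
        by_cases hpk : p ∈ k.carrier
        · exact Or.inl hpk
        · exact Or.inr (hno k hk hpk)
      obtain ⟨k, hk, hpk, q0, hq0, hpq0⟩ := hpB2
      have hg'k : gll g' k := by
        rcases hS.ch g' hg' k hk with e | e | e
        · rw [e] at hp; exact absurd hp hpk
        · exact e
        · exact absurd (sub_of_gll e hp) hpk
      have hkh' : gll k h' := by
        rcases hS.ch k hk h' hh' with e | e | e
        · rw [e] at hq0; exact absurd (hpq q0 hq0) hpq0
        · exact e
        · exact absurd (hpq q0 (sub_of_gll e hq0)) hpq0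
      rcases hLIM α G hS k hk with ⟨x, hxB, hxk, hx⟩ | hR
      · exfalso
        have h3 : x ∉ h'.carrier := hx h' hh' hkh'
        have h4 : ∀ q ∈ h'.carrier, x < q := (hxB h' hh').resolve_left h3
        obtain ⟨q, hq, hnq⟩ := hcon x hxB (h1 (sub_of_gll hg'k hxk))
        exact hnq (h4 q (h2 hq))
      · obtain ⟨h'', hh'', hkh'', hq0''⟩ := hR q0 hq0
        have hh''h' : gll h'' h' := by
          rcases hS.ch h'' hh'' h' hh' with e | e | e
          · rw [e] at hq0''; exact absurd (hpq q0 hq0'') hpq0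
          · exact e
          · exact absurd (hpq q0 (sub_of_gll e hq0'')) hpq0
        have hps := hs3 p hp hpq
        have hpn : p ∉ s := fun hin => (hps p hin).1 le_rfl
        refine ⟨k, hk, h'', hh'', hkh'', (sub_of_gll hg'k).trans h1,
          h2.trans (sub_of_gll hh''h'), insert p s, ?_, ?_, ?_⟩
        · rw [Finset.coe_insert]
          refine hs1.insert ?_ ?_
          · intro b hb _
            exact (hps b hb).2
          · intro b hb _
            exact (hps b hb).1
        · rw [Finset.card_insert_of_notMem hpn, hs2]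
        · intro q hq hqr a ha
          rcases Finset.mem_insert.1 ha with rfl | ha
          · refine ⟨fun hle => hpk (k.up q hq _ hle), fun hle => ?_⟩
            exact hpq0 (lt_of_le_of_lt hle (hqr q0 hq0''))
          · exact hs3 q (sub_of_gll hg'k hq) (fun r hr => hqr r (sub_of_gll hh''h' hr)) a ha
  obtain ⟨_, _, _, _, _, _, _, s, hs1, hs2, _⟩ := key (w + 1)
  have := hw s hs1
  omega

end Pool.Agent.Y666.SP
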